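import Pool.Agent.Lib.MP_cc859a_an.Lp.Main
import Pool.Agent.Lib.MP_cc859a_an.Lp.Cert

/-! The triple averages along `n, 2 n, 3 n` of a function in `L ^ p`, `p = 1.421`, can be unbounded
almost everywhere, in every ergodic system with sets of arbitrarily small positive measure. -/

namespace Pool.Agent.Results.MP_cc859a_an.LpDivergence

open MeasureTheory Filter

theorem result (X : Type) [MeasurableSpace X] (μ : Measure X) [IsProbabilityMeasure μ] (T : X → X)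
    (hT : Ergodic T μ)
    (hμ : ∀ δ : ℝ, 0 < δ → ∃ B : Set X, MeasurableSet B ∧ 0 < μ.real B ∧ μ.real B < δ) :
    ∃ f : X → ℝ, Measurable f ∧ (∀ x, 0 ≤ f x) ∧ MemLp f (ENNReal.ofReal (1421 / 1000)) μ ∧
      ∀ᵐ x ∂μ, ∀ M : ℝ, ∃ᶠ N : ℕ in atTop, M ≤
        (1 / N : ℝ) * ∑ n ∈ Finset.Icc 1 N, f (T^[n] x) * f (T^[2 * n] x) * f (T^[3 * n] x) :=
  Pool.Agent.Lib.MP_cc859a_an.Lp.diverge Pool.Agent.Lib.MP_cc859a_an.Lp.data (by norm_num)
    (by norm_num) hT hμ

end Pool.Agent.Results.MP_cc859a_an.LpDivergence
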