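import Pool.Agent.Lib.MP_cc859a_an.TR.Main

namespace Pool.Agent.Results.MP_cc859a_an.Triple

open MeasureTheory Filter Topology

/-- Pointwise convergence of the triple averages: for every measure preserving map `T` of a
probability space (invertible or not) and all bounded complex functions, the averages of
`f₁ (T ^ n x) f₂ (T ^ (2 n) x) f₃ (T ^ (3 n) x)` converge for almost every `x`. -/
theorem result {X : Type*} [MeasurableSpace X] (μ : Measure X) [IsProbabilityMeasure μ]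
    (T : X → X) (hT : MeasurePreserving T μ μ) (f₁ f₂ f₃ : X → ℂ)
    (h₁ : MemLp f₁ ⊤ μ) (h₂ : MemLp f₂ ⊤ μ) (h₃ : MemLp f₃ ⊤ μ) :
    ∀ᵐ x ∂μ, ∃ l : ℂ, Tendsto (fun N : ℕ => (1 / (N : ℂ)) * ∑ n ∈ Finset.Icc 1 N,
      f₁ (T^[n] x) * f₂ (T^[2 * n] x) * f₃ (T^[3 * n] x)) atTop (𝓝 l) :=
  Pool.Agent.TR.main μ hT h₁ h₂ h₃

end Pool.Agent.Results.MP_cc859a_an.Triple
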